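import Mathlib
import Pool.Agent.R516.MPD

set_option autoImplicit false

/-!
# Montgomery's large value conjecture for coefficients supported on many short arithmetic progressions

For every `A ≥ 1` and `η > 0` there is `c > 0` such that Q1 holds, without the loss `N^ε` and for all `T ≤ N^A`,
for all coefficients bounded by `1` supported on a union of arithmetic progressions `P_j` in `[N, 2N]`, of
differences `d_j` and lengths `L_j` with `d_j L_j^3 ≥ N^(1+η)` and `∑ L_j ≤ N^(1/2+c)`, and on any `N^(1/2)`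
further integers. For instance, on any set covered by `N^(1/6-η/3)` intervals of `N^((1+η)/3+c)` consecutive
integers.
-/

namespace Pool.Agent.Results.MP_ecd12e_nt.ManyProgressions

open Finset

/-- `D(t) = ∑_{n=N}^{2N} b_n n^{it}` -/
noncomputable def D (N : ℕ) (b : ℕ → ℂ) (t : ℝ) : ℂ :=
  ∑ n ∈ Icc N (2 * N), b n * Complex.exp (Complex.I * (t : ℂ) * (Real.log (n : ℝ) : ℂ))

/-- `n` lies in `E` or in one of the progressions `m_j, m_j + d_j, …, m_j + (L_j - 1) d_j`, `j ∈ J` -/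
def Supp (J : Finset ℕ) (m d L : ℕ → ℕ) (E : Finset ℕ) (n : ℕ) : Prop :=
  n ∈ E ∨ ∃ j ∈ J, ∃ i < L j, n = m j + d j * i

/-- the progressions lie in `[N, 2N]`, have at least two terms, `d_j L_j^3 ≥ N^(1+η)` for every `j ∈ J`,
`∑ L_j ≤ N^(1/2+c)`, and `E` has at most `N^(1/2)` elements -/
def Thin (N : ℕ) (η c : ℝ) (J : Finset ℕ) (m d L : ℕ → ℕ) (E : Finset ℕ) : Prop :=
  (∀ j ∈ J, N ≤ m j ∧ m j + d j * (L j - 1) ≤ 2 * N) ∧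
    (∀ j ∈ J, 1 ≤ d j ∧ 2 ≤ L j ∧ (N : ℝ) ^ (1 + η) ≤ d j * (L j : ℝ) ^ 3) ∧
    ∑ j ∈ J, (L j : ℝ) ≤ (N : ℝ) ^ (1 / 2 + c) ∧ (E.card : ℝ) ≤ (N : ℝ) ^ (1 / 2 : ℝ)

open Pool.Agent.R516.MP in
open Pool.Agent.R516.MS (large sigmaForm) in
/-- Let `A ≥ 1`, `0 < η ≤ 1`. There is `c > 0` such that for all `T ≤ N^A` and all `|b_n| ≤ 1` supported in
`[N, 2N]` on a union of progressions and on a set `E` satisfying `Thin`: (i) `|W| ≤ C(A, η) N²/V²` for all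
`1`-separated `W ⊂ [0,T]` (for instance sets of integers) with `|D| ≥ V` on `W`, as soon as `V² ≥ C(A, η) N`;
(ii) `|W| ≤ C(A, η, σ) N^(2-2σ)` if `σ > 1/2` and `|D| > N^σ` on `W`. -/
theorem result (A η : ℝ) (hA : 1 ≤ A) (hη : 0 < η) (hη1 : η ≤ 1) :
    ∃ c : ℝ, 0 < c ∧
      (∃ C : ℝ, ∀ (N : ℕ) (J : Finset ℕ) (m d L : ℕ → ℕ) (E : Finset ℕ) (T : ℝ) (b : ℕ → ℂ), 1 ≤ N →
        Thin N η c J m d L E → T ≤ (N : ℝ) ^ A → (∀ n, ‖b n‖ ≤ 1) →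
        (∀ n ∈ Icc N (2 * N), b n ≠ 0 → Supp J m d L E n) →
        ∀ (W : Finset ℝ) (V : ℝ), (∀ t ∈ W, 0 ≤ t ∧ t ≤ T) → (∀ t ∈ W, ∀ u ∈ W, t ≠ u → 1 ≤ |t - u|) →
          0 < V → C * N ≤ V ^ 2 → (∀ t ∈ W, V ≤ ‖D N b t‖) → (W.card : ℝ) ≤ C * (N : ℝ) ^ 2 / V ^ 2) ∧
      ∀ σ : ℝ, 1 / 2 < σ → ∃ C : ℝ, ∀ (N : ℕ) (J : Finset ℕ) (m d L : ℕ → ℕ) (E : Finset ℕ) (T : ℝ)
        (b : ℕ → ℂ), 1 ≤ N → Thin N η c J m d L E → T ≤ (N : ℝ) ^ A → (∀ n, ‖b n‖ ≤ 1) →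
        (∀ n ∈ Icc N (2 * N), b n ≠ 0 → Supp J m d L E n) →
        ∀ W : Finset ℝ, (∀ t ∈ W, 0 ≤ t ∧ t ≤ T) → (∀ t ∈ W, ∀ u ∈ W, t ≠ u → 1 ≤ |t - u|) →
          (∀ t ∈ W, (N : ℝ) ^ σ < ‖D N b t‖) → (W.card : ℝ) ≤ C * (N : ℝ) ^ (2 - 2 * σ) := by
  obtain ⟨c, C0, hc0, hC0, h⟩ := onTwo A η hA hη hη1
  have hL : ∀ (N : ℕ) (J : Finset ℕ) (m d L : ℕ → ℕ) (E : Finset ℕ) (T : ℝ) (b : ℕ → ℂ), 1 ≤ N →
        Thin N η c J m d L E → T ≤ (N : ℝ) ^ A → (∀ n, ‖b n‖ ≤ 1) →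
        (∀ n ∈ Icc N (2 * N), b n ≠ 0 → Supp J m d L E n) →
        ∀ (W : Finset ℝ) (V : ℝ), (∀ t ∈ W, 0 ≤ t ∧ t ≤ T) → (∀ t ∈ W, ∀ u ∈ W, t ≠ u → 1 ≤ |t - u|) →
          0 < V → 2 * C0 * N ≤ V ^ 2 → (∀ t ∈ W, V ≤ ‖D N b t‖) →
          (W.card : ℝ) ≤ 2 * C0 * (N : ℝ) ^ 2 / V ^ 2 := by
    intro N J m d L E T b hN hBE hT hb hs W V hW hsep hV hVN hD
    obtain ⟨h1, h2, h3, h4⟩ := hBE
    have h5 := h N J m d L E hN h1 h2 h3 h4 T W b hT hsep hW hs hb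
    exact (large (by linarith) (Nat.cast_nonneg _) W (fun t => ‖D N b t‖) h5 hV hVN hD).1
  refine ⟨c, hc0, ⟨2 * C0, hL⟩, ?_⟩
  intro σ hσ
  obtain ⟨C, hC⟩ := sigmaForm (2 * C0) A σ (by linarith) (by linarith) hσ
  refine ⟨C, ?_⟩
  intro N J m d L E T b hN hBE hT hb hs W hW hsep hD
  exact hC N T (fun t => ‖D N b t‖) W hN hT hW hsep hD
    (fun V hV hVN hVD => hL N J m d L E T b hN hBE hT hb hs W V hW hsep hV hVN hVD)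

end Pool.Agent.Results.MP_ecd12e_nt.ManyProgressions
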