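import Mathlib
import Pool.Agent.R327.SIEcd

set_option autoImplicit false

/-!
# Montgomery's large value conjecture for coefficients supported on a short interval, `T ≤ N²`

Q1 holds for all `T ≤ N²` and all coefficients bounded by `1` which are supported on an interval of at most
`N^(5/9)` consecutive integers of `[N,2N]`. There is no loss `N^ε`: `|W| ≤ C N² / V²` as soon as `|D| ≥ V` on
the `1`-separated set `W` and `V² ≥ C (1 + log N)² N`.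
-/

namespace Pool.Agent.Results.MP_ecd12e_nt.ShortIntervals

open Finset

/-- `D(t) = ∑_{n=N}^{2N} b_n n^{it}` -/
noncomputable def D (N : ℕ) (b : ℕ → ℂ) (t : ℝ) : ℂ :=
  ∑ n ∈ Icc N (2 * N), b n * Complex.exp (Complex.I * (t : ℂ) * (Real.log (n : ℝ) : ℂ))

/-- the large value estimate without loss, for the coefficients `b` on `[0,T]` -/
def NoLoss (N : ℕ) (T C : ℝ) (b : ℕ → ℂ) : Prop :=
  ∀ (W : Finset ℝ) (V : ℝ), (∀ t ∈ W, 0 ≤ t ∧ t ≤ T) → (∀ t ∈ W, ∀ u ∈ W, t ≠ u → 1 ≤ |t - u|) →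
    0 < V → C * (1 + Real.log N) ^ 2 * N ≤ V ^ 2 → (∀ t ∈ W, V ≤ ‖D N b t‖) →
      (W.card : ℝ) ≤ C * (N : ℝ) ^ 2 / V ^ 2

open Pool.Agent.R327.SI in
/-- For all `|b_n| ≤ 1` whose support in `[N, 2N]` is contained in `[m, m + L)`, `m ≥ N`, `L ≤ N^(5/9)`, and
all `T ≤ N²`: `|W| ≤ C N²/V²` whenever `W ⊂ [0,T]` is `1`-separated (for instance a set of integers), `|D| ≥ V`
on `W` and `V² ≥ C (1 + log N)² N`. In particular Q1 holds: `|W| ≤ C(σ, ε) N^(2-2σ+ε)` if `|D| > N^σ` on `W`. -/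
theorem result :
    (∃ C : ℝ, ∀ (N m L : ℕ) (T : ℝ) (b : ℕ → ℂ), 1 ≤ N → N ≤ m →
        (L : ℝ) ≤ (N : ℝ) ^ (5 / 9 : ℝ) → T ≤ (N : ℝ) ^ 2 → (∀ n, ‖b n‖ ≤ 1) →
        (∀ n ∈ Icc N (2 * N), b n ≠ 0 → m ≤ n ∧ n < m + L) → NoLoss N T C b) ∧
    (∀ σ ε : ℝ, 1 / 2 < σ → 0 < ε → ∃ C : ℝ, ∀ (N m L : ℕ) (T : ℝ) (b : ℕ → ℂ), 1 ≤ N → N ≤ m →
        (L : ℝ) ≤ (N : ℝ) ^ (5 / 9 : ℝ) → T ≤ (N : ℝ) ^ 2 → (∀ n, ‖b n‖ ≤ 1) →
        (∀ n ∈ Icc N (2 * N), b n ≠ 0 → m ≤ n ∧ n < m + L) →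
        ∀ W : Finset ℝ, (∀ t ∈ W, 0 ≤ t ∧ t ≤ T) → (∀ t ∈ W, ∀ u ∈ W, t ≠ u → 1 ≤ |t - u|) →
          (∀ t ∈ W, (N : ℝ) ^ σ < ‖D N b t‖) → (W.card : ℝ) ≤ C * (N : ℝ) ^ (2 - 2 * σ + ε)) := by
  have hI : ∃ C : ℝ, 1 ≤ C ∧ ∀ (N m L : ℕ) (T : ℝ) (b : ℕ → ℂ), 1 ≤ N → N ≤ m →
        (L : ℝ) ≤ (N : ℝ) ^ (5 / 9 : ℝ) → T ≤ (N : ℝ) ^ 2 → (∀ n, ‖b n‖ ≤ 1) →
        (∀ n ∈ Icc N (2 * N), b n ≠ 0 → m ≤ n ∧ n < m + L) → Ecd.NoLoss N T C b := by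
    obtain ⟨C0, hC0, h⟩ := goodI
    refine ⟨2400000 * C0, by linarith, ?_⟩
    intro N m L T b hN hNm hL hT hb hs
    have hN1 : (1 : ℝ) ≤ N := by exact_mod_cast hN
    refine Ecd.key (1 / 18) C0 (by norm_num) le_rfl hC0 N m 1 L T hN hNm le_rfl ?_ b hb ?_
    · intro hm
      have h1 := supp_len (2 * N) (2 * N) m 1 L hm le_rfl
      apply h N m _ hN hNm (by omega)
      · have h1 : ((min L ((2 * N - m) / 1 + 1) : ℕ) : ℝ) ≤ L := by exact_mod_cast min_le_left _ _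
        have h2 : 0 ≤ (N : ℝ) ^ (5 / 9 : ℝ) := by positivity
        linarith
      · have : 0 ≤ (N : ℝ) ^ 2 := by positivity
        linarith
    · intro n hn hne
      have := hs n hn hne
      exact ⟨n - m, by omega, by omega⟩
  obtain ⟨C, hC, h⟩ := hI
  refine ⟨⟨C, h⟩, ?_⟩
  intro σ ε hσ hε
  obtain ⟨C', hC'⟩ := Ecd.form C 2 σ ε hC (by norm_num) hσ hε
  refine ⟨C', ?_⟩
  intro N m L T b hN hNm hL hT hb hs
  exact hC' N T b hN (by rw [Real.rpow_two]; exact hT) (h N m L T b hN hNm hL hT hb hs)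

end Pool.Agent.Results.MP_ecd12e_nt.ShortIntervals
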