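import Mathlib
import Pool.Agent.R327.SIEcd

set_option autoImplicit false

/-!
# Montgomery's large value conjecture for coefficients supported on a short arithmetic progression

For every `A ≥ 1` there is `c > 0` such that Q1 holds, for all `T ≤ N^A`, for all coefficients bounded by `1`
which are supported on an arithmetic progression with at most `N^(1/2+c)` terms in `[N,2N]` (any first term, any
difference). There is no loss `N^ε`: `|W| ≤ C N² / V²` as soon as `|D| ≥ V` on the `1`-separated set `W` and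
`V² ≥ C (1 + log N)² N`.
-/

namespace Pool.Agent.Results.MP_ecd12e_nt.ShortProgressions

open Finset

/-- `D(t) = ∑_{n=N}^{2N} b_n n^{it}` -/
noncomputable def D (N : ℕ) (b : ℕ → ℂ) (t : ℝ) : ℂ :=
  ∑ n ∈ Icc N (2 * N), b n * Complex.exp (Complex.I * (t : ℂ) * (Real.log (n : ℝ) : ℂ))

/-- the large value estimate without loss, for the coefficients `b` on `[0,T]` -/
def NoLoss (N : ℕ) (T C : ℝ) (b : ℕ → ℂ) : Prop :=
  ∀ (W : Finset ℝ) (V : ℝ), (∀ t ∈ W, 0 ≤ t ∧ t ≤ T) → (∀ t ∈ W, ∀ u ∈ W, t ≠ u → 1 ≤ |t - u|) →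
    0 < V → C * (1 + Real.log N) ^ 2 * N ≤ V ^ 2 → (∀ t ∈ W, V ≤ ‖D N b t‖) →
      (W.card : ℝ) ≤ C * (N : ℝ) ^ 2 / V ^ 2

open Pool.Agent.R327.SI in
/-- For every `A ≥ 1` there is `c > 0` such that for all `|b_n| ≤ 1` whose support in `[N, 2N]` is contained
in an arithmetic progression `m, m + d, …, m + (L-1) d` with `m ≥ N` and `L ≤ N^(1/2+c)`, and for all
`T ≤ N^A`: `|W| ≤ C N²/V²` whenever `W ⊂ [0,T]` is `1`-separated (for instance a set of integers), `|D| ≥ V` on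
`W` and `V² ≥ C (1 + log N)² N`. In particular Q1 holds: `|W| ≤ C(σ, A, ε) N^(2-2σ+ε)` if `|D| > N^σ` on `W`. -/
theorem result (A : ℝ) (hA : 1 ≤ A) : ∃ c : ℝ, 0 < c ∧
      (∃ C : ℝ, ∀ (N m d L : ℕ) (T : ℝ) (b : ℕ → ℂ), 1 ≤ N → N ≤ m → 1 ≤ d →
        (L : ℝ) ≤ (N : ℝ) ^ (1 / 2 + c) → T ≤ (N : ℝ) ^ A → (∀ n, ‖b n‖ ≤ 1) →
        (∀ n ∈ Icc N (2 * N), b n ≠ 0 → ∃ j < L, n = m + d * j) → NoLoss N T C b) ∧
      ∀ σ ε : ℝ, 1 / 2 < σ → 0 < ε → ∃ C : ℝ, ∀ (N m d L : ℕ) (T : ℝ) (b : ℕ → ℂ), 1 ≤ N → N ≤ m →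
        1 ≤ d → (L : ℝ) ≤ (N : ℝ) ^ (1 / 2 + c) → T ≤ (N : ℝ) ^ A → (∀ n, ‖b n‖ ≤ 1) →
        (∀ n ∈ Icc N (2 * N), b n ≠ 0 → ∃ j < L, n = m + d * j) →
        ∀ W : Finset ℝ, (∀ t ∈ W, 0 ≤ t ∧ t ≤ T) → (∀ t ∈ W, ∀ u ∈ W, t ≠ u → 1 ≤ |t - u|) →
          (∀ t ∈ W, (N : ℝ) ^ σ < ‖D N b t‖) → (W.card : ℝ) ≤ C * (N : ℝ) ^ (2 - 2 * σ + ε) := by
  obtain ⟨c, hc0, hc, C0, hC0, h⟩ := goodAP A hA
  have hC : (1 : ℝ) ≤ 2400000 * C0 := by linarith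
  have hNL : ∀ (N m d L : ℕ) (T : ℝ) (b : ℕ → ℂ),
      1 ≤ N → N ≤ m → 1 ≤ d → (L : ℝ) ≤ (N : ℝ) ^ (1 / 2 + c) → T ≤ (N : ℝ) ^ A →
      (∀ n, ‖b n‖ ≤ 1) → (∀ n ∈ Icc N (2 * N), b n ≠ 0 → ∃ j < L, n = m + d * j) →
      Ecd.NoLoss N T (2400000 * C0) b := by
    intro N m d L T b hN hNm hd hL hT hb hs
    have hN1 : (1 : ℝ) ≤ N := by exact_mod_cast hN
    refine Ecd.key c C0 hc0.le (by linarith) hC0 N m d L T hN hNm hd ?_ b hb hs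
    intro hm
    apply h N m d _ hN hd hNm (supp_len (2 * N) (2 * N) m d L hm le_rfl)
    · have h1 : ((min L ((2 * N - m) / d + 1) : ℕ) : ℝ) ≤ L := by exact_mod_cast min_le_left _ _
      have h2 : 0 ≤ (N : ℝ) ^ (1 / 2 + c) := by positivity
      linarith
    · refine hT.trans (Real.rpow_le_rpow (by linarith) (by linarith) (by linarith))
  refine ⟨c, hc0, ⟨2400000 * C0, hNL⟩, ?_⟩
  intro σ ε hσ hε
  obtain ⟨C', hC'⟩ := Ecd.form (2400000 * C0) A σ ε hC (by linarith) hσ hε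
  refine ⟨C', ?_⟩
  intro N m d L T b hN hNm hd hL hT hb hs
  exact hC' N T b hN hT (hNL N m d L T b hN hNm hd hL hT hb hs)

end Pool.Agent.Results.MP_ecd12e_nt.ShortProgressions
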