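import Mathlib
import Pool.Agent.R516.MSE

set_option autoImplicit false

/-!
# Montgomery's large value conjecture for coefficients supported on multiples of a sparse set, and on the integers `β d^k`

For every `A ≥ 1`, `K ≥ 1`, `0 < μ ≤ 1` there is `c > 0` such that Q1 holds, without the loss `N^ε` and for all
`T ≤ N^A`, for all coefficients bounded by `1` supported on the integers `β d^k`, where the pairs `(β, k)` run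
over any set `B` with `β ≤ N^(1-μ)`, `k ≤ K` and `∑_{(β,k) ∈ B} (N/β)^(1/k) ≤ N^(1/2+c)`, and on any `N^(1/2)`
further integers. With `K = 1`: on the multiples of the elements of any set `B` with `∑_{β ∈ B} 1/β ≤ N^(-1/2+c)`.
-/

namespace Pool.Agent.Results.MP_ecd12e_nt.SparseMultiples

open Finset

/-- `D(t) = ∑_{n=N}^{2N} b_n n^{it}` -/
noncomputable def D (N : ℕ) (b : ℕ → ℂ) (t : ℝ) : ℂ :=
  ∑ n ∈ Icc N (2 * N), b n * Complex.exp (Complex.I * (t : ℂ) * (Real.log (n : ℝ) : ℂ))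

/-- `n` is of the form `β d^k` with `(β, k) ∈ B` and an integer `d`, or an element of `E` -/
def Supp (B : Finset (ℕ × ℕ)) (E : Finset ℕ) (n : ℕ) : Prop :=
  n ∈ E ∨ ∃ p ∈ B, ∃ d : ℕ, n = p.1 * d ^ p.2

/-- the pairs `(β, k) ∈ B` satisfy `1 ≤ β ≤ N^(1-μ)`, `1 ≤ k ≤ K` and `∑ (N/β)^(1/k) ≤ N^(1/2+c)`, and `E` has
at most `N^(1/2)` elements -/
def Thin (N : ℕ) (μ c : ℝ) (K : ℕ) (B : Finset (ℕ × ℕ)) (E : Finset ℕ) : Prop :=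
  (∀ p ∈ B, 1 ≤ p.1 ∧ (p.1 : ℝ) ≤ (N : ℝ) ^ (1 - μ) ∧ 1 ≤ p.2 ∧ p.2 ≤ K) ∧
    ∑ p ∈ B, ((N : ℝ) / p.1) ^ ((1 : ℝ) / p.2) ≤ (N : ℝ) ^ (1 / 2 + c) ∧
    (E.card : ℝ) ≤ (N : ℝ) ^ (1 / 2 : ℝ)

open Pool.Agent.R516.MS in
/-- Let `A ≥ 1`, `K ≥ 1`, `0 < μ ≤ 1`. There is `c > 0` such that for all `T ≤ N^A` and all `|b_n| ≤ 1` supported
in `[N, 2N]` on integers of the form `β d^k`, `(β, k) ∈ B`, and elements of `E`, where `B`, `E` satisfy `Thin`: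
(i) `|W| ≤ C(A, K, μ) N²/V²` for all `1`-separated `W ⊂ [0,T]` (for instance sets of integers) with `|D| ≥ V` on
`W`, as soon as `V² ≥ C(A, K, μ) N`; (ii) `|W| ≤ C(A, K, μ, σ) N^(2-2σ)` if `σ > 1/2` and `|D| > N^σ` on `W`. -/
theorem result (A μ : ℝ) (K : ℕ) (hA : 1 ≤ A) (hμ : 0 < μ) (hμ1 : μ ≤ 1) (hK : 1 ≤ K) :
    ∃ c : ℝ, 0 < c ∧
      (∃ C : ℝ, ∀ (N : ℕ) (B : Finset (ℕ × ℕ)) (E : Finset ℕ) (T : ℝ) (b : ℕ → ℂ), 1 ≤ N →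
        Thin N μ c K B E → T ≤ (N : ℝ) ^ A → (∀ n, ‖b n‖ ≤ 1) →
        (∀ n ∈ Icc N (2 * N), b n ≠ 0 → Supp B E n) →
        ∀ (W : Finset ℝ) (V : ℝ), (∀ t ∈ W, 0 ≤ t ∧ t ≤ T) → (∀ t ∈ W, ∀ u ∈ W, t ≠ u → 1 ≤ |t - u|) →
          0 < V → C * N ≤ V ^ 2 → (∀ t ∈ W, V ≤ ‖D N b t‖) → (W.card : ℝ) ≤ C * (N : ℝ) ^ 2 / V ^ 2) ∧
      ∀ σ : ℝ, 1 / 2 < σ → ∃ C : ℝ, ∀ (N : ℕ) (B : Finset (ℕ × ℕ)) (E : Finset ℕ) (T : ℝ) (b : ℕ → ℂ),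
        1 ≤ N → Thin N μ c K B E → T ≤ (N : ℝ) ^ A → (∀ n, ‖b n‖ ≤ 1) →
        (∀ n ∈ Icc N (2 * N), b n ≠ 0 → Supp B E n) →
        ∀ W : Finset ℝ, (∀ t ∈ W, 0 ≤ t ∧ t ≤ T) → (∀ t ∈ W, ∀ u ∈ W, t ≠ u → 1 ≤ |t - u|) →
          (∀ t ∈ W, (N : ℝ) ^ σ < ‖D N b t‖) → (W.card : ℝ) ≤ C * (N : ℝ) ^ (2 - 2 * σ) := by
  obtain ⟨c, C0, hc0, hC0, h⟩ := onTwo A μ K hA hμ hμ1 hK
  have hL : ∀ (N : ℕ) (B : Finset (ℕ × ℕ)) (E : Finset ℕ) (T : ℝ) (b : ℕ → ℂ), 1 ≤ N →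
        Thin N μ c K B E → T ≤ (N : ℝ) ^ A → (∀ n, ‖b n‖ ≤ 1) →
        (∀ n ∈ Icc N (2 * N), b n ≠ 0 → Supp B E n) →
        ∀ (W : Finset ℝ) (V : ℝ), (∀ t ∈ W, 0 ≤ t ∧ t ≤ T) → (∀ t ∈ W, ∀ u ∈ W, t ≠ u → 1 ≤ |t - u|) →
          0 < V → 2 * C0 * N ≤ V ^ 2 → (∀ t ∈ W, V ≤ ‖D N b t‖) →
          (W.card : ℝ) ≤ 2 * C0 * (N : ℝ) ^ 2 / V ^ 2 := by
    intro N B E T b hN hBE hT hb hs W V hW hsep hV hVN hD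
    obtain ⟨h1, h2, h3⟩ := hBE
    have h4 := h N B E hN h1 h2 h3 T W b hT hsep hW hs hb
    exact (large (by linarith) (Nat.cast_nonneg _) W (fun t => ‖D N b t‖) h4 hV hVN hD).1
  refine ⟨c, hc0, ⟨2 * C0, hL⟩, ?_⟩
  intro σ hσ
  obtain ⟨C, hC⟩ := sigmaForm (2 * C0) A σ (by linarith) (by linarith) hσ
  refine ⟨C, ?_⟩
  intro N B E T b hN hBE hT hb hs W hW hsep hD
  exact hC N T (fun t => ‖D N b t‖) W hN hT hW hsep hD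
    (fun V hV hVN hVD => hL N B E T b hN hBE hT hb hs W V hW hsep hV hVN hVD)

end Pool.Agent.Results.MP_ecd12e_nt.SparseMultiples
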